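import Pool.Agent.Lib.MP_53c676_al.SX.Chain

namespace Pool.Agent.Results.MP_53c676_al.Chain

open Pool.Agent.Lib.MP_53c676_al

universe u

/-- Below a non-minimal just infinite branch group `G` the largeness classes form a chain that
is order isomorphic to the set of the rationals `j / |L_n|`, `0 ≤ j ≤ |L_n|`, the class with
value `j / |L_n|` being the one of `RiSt(u)^j` for `u` on the level `L_n`. -/
theorem result (G : Type u) [Group G] (hJ : IsJustInfinite G) (k : ℕ → ℕ)
    (ρ : G →* Equiv.Perm (Vertex k)) (hρ : IsBranchAction k ρ) (hG : ¬ IsMinimalGroup G) :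
    ∃ f : (H : Type u) → [Group H] → ℚ,
      (∀ (H K : Type u) [Group H] [Group K], Larger G H → Larger G K →
        (Larger H K ↔ f K ≤ f H)) ∧
      (∀ (H : Type u) [Group H], Larger G H → ∃ n j : ℕ,
        j ≤ Nat.card {v : Vertex k // v.1.length = n} ∧
          f H = j / Nat.card {v : Vertex k // v.1.length = n}) ∧
      ∀ (u : Vertex k) (j : ℕ), j ≤ Nat.card {v : Vertex k // v.1.length = u.1.length} →
        Larger G (Fin j → rist ρ u) ∧
          f (Fin j → rist ρ u) = j / Nat.card {v : Vertex k // v.1.length = u.1.length} :=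
  chain_below hρ hJ hG

end Pool.Agent.Results.MP_53c676_al.Chain
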