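import Pool.Agent.Lib.MP_53c676_al.Main

namespace Pool.Agent.Results.MP_53c676_al.Criterion

open Pool.Agent.Lib.MP_53c676_al

universe u

/-- A just infinite branch group `G` (finitely generated or not) is minimal iff two different
finite powers of `G` are abstractly commensurable, iff `G` is abstractly commensurable with a
power `RiSt(u)^j` with `j` smaller than the size of the level of `u`. -/
theorem result (G : Type u) [Group G] (hJ : IsJustInfinite G) (k : ℕ → ℕ)
    (ρ : G →* Equiv.Perm (Vertex k)) (hρ : IsBranchAction k ρ) :
    List.TFAE [IsMinimalGroup G,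
      ∃ a b : ℕ, a ≠ b ∧ AbsComm (Fin a → G) (Fin b → G),
      ∃ (u : Vertex k) (j : ℕ), j < Nat.card {v : Vertex k // v.1.length = u.1.length} ∧
        AbsComm G (Fin j → rist ρ u)] :=
  criterion hρ hJ

end Pool.Agent.Results.MP_53c676_al.Criterion
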